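import Mathlib

set_option autoImplicit false
open Finset MeasureTheory
open scoped ENNReal

namespace Pool.Agent.Results.MP_c9d3d4_lc.NonUniform

/-- size of a finitely supported sequence -/
def size (p : ℕ →₀ ℕ) : ℕ := p.sum fun _ a => a

/-- the `ℓ₁` distance of a real sequence from an integer sequence -/
noncomputable def l1 (y : ℕ → ℝ) (p : ℕ →₀ ℕ) : ℝ≥0∞ := ∑' i, ENNReal.ofReal |y i - p i|

/-- `A` is an `ε`-DP algorithm on partitions (antitone sequences) of size at most `n` -/
def IsDP (n : ℕ) (ε : ℝ) (A : (ℕ →₀ ℕ) → Measure (ℕ → ℝ)) : Prop :=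
  (∀ p : ℕ →₀ ℕ, Antitone p → size p ≤ n → IsProbabilityMeasure (A p)) ∧
  ∀ p p' : ℕ →₀ ℕ, Antitone p → size p ≤ n → Antitone p' → size p' ≤ n →
    l1 (fun i => p i) p' ≤ 1 → ∀ S, MeasurableSet S → A p S ≤ ENNReal.ofReal (Real.exp ε) * A p' S

section comb
variable {α : Type} [Fintype α] [DecidableEq α]

def H (x z : Finset α) : ℕ := (z \ x).card + (x \ z).card

omit [Fintype α] in
lemma H_move {x z : Finset α} {i j : α} (h1 : i ∈ x) (h2 : i ∈ z) (h3 : j ∉ x) (h4 : j ∉ z) :
    H (insert j (x.erase i)) z = H x z + 2 := by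
  have e1 : z \ insert j (x.erase i) = insert i (z \ x) := by
    ext a; simp only [mem_sdiff, mem_insert, mem_erase]
    constructor
    · rintro ⟨a1, a2⟩
      by_cases h : a = i
      · exact Or.inl h
      · exact Or.inr ⟨a1, fun hx => a2 (Or.inr ⟨h, hx⟩)⟩
    · rintro (rfl | ⟨a1, a2⟩)
      · exact ⟨h2, fun h => h.elim (fun h => h3 (h ▸ h1)) fun h => h.1 rfl⟩
      · exact ⟨a1, fun h => h.elim (fun h => h4 (h ▸ a1)) fun h => a2 h.2⟩
  have e2 : insert j (x.erase i) \ z = insert j (x \ z) := by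
    ext a; simp only [mem_sdiff, mem_insert, mem_erase]
    constructor
    · rintro ⟨a1 | a1, a2⟩
      · exact Or.inl a1
      · exact Or.inr ⟨a1.2, a2⟩
    · rintro (rfl | ⟨a1, a2⟩)
      · exact ⟨Or.inl rfl, h4⟩
      · exact ⟨Or.inr ⟨fun h => a2 (h ▸ h2), a1⟩, a2⟩
  rw [H, e1, e2, card_insert_of_notMem (by simp [h1]), card_insert_of_notMem (by simp [h3]), H]
  omega

lemma sum_ite_card (L : Finset (Finset α)) (F : Finset α → ℝ) (P Q : Finset α → Finset α) :
    ∑ i, ∑ j, ∑ x ∈ L.filter (fun x => i ∈ P x ∧ j ∈ Q x), F x =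
      ∑ x ∈ L, F x * ((P x).card * (Q x).card) := by
  simp only [sum_filter]
  rw [sum_congr rfl fun i _ => sum_comm, sum_comm]
  refine sum_congr rfl fun x _ => ?_
  have : ∀ i j, (if i ∈ P x ∧ j ∈ Q x then F x else 0) =
      F x * ((if i ∈ P x then (1 : ℝ) else 0) * (if j ∈ Q x then (1 : ℝ) else 0)) := by
    intro i j; by_cases h : i ∈ P x <;> by_cases h' : j ∈ Q x <;> simp [h, h']
  simp only [this, ← mul_sum, ← sum_mul]
  simp

lemma key (k : ℕ) (E : ℝ) (hE : 0 ≤ E) (z : Finset α) (w : Finset α → ℝ) (hw : ∀ x, 0 ≤ w x)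
    (hdp : ∀ x ∈ powersetCard k (univ : Finset α), ∀ i ∈ x, ∀ j ∉ x, w x ≤ E * w (insert j (x.erase i))) :
    ∑ x ∈ powersetCard k univ, w x / (H x z + 2) * ((x ∩ z).card * (x ∪ z)ᶜ.card) ≤
      E * ∑ x ∈ powersetCard k univ, w x * (H x z / 4) := by
  rw [← sum_ite_card _ _ (fun x => x ∩ z) (fun x => (x ∪ z)ᶜ)]
  calc _ ≤ ∑ i, ∑ j, ∑ x ∈ (powersetCard k univ).filter (fun x => i ∈ z \ x ∧ j ∈ x \ z),
        E * (w x / H x z) := by
        refine sum_le_sum fun i _ => sum_le_sum fun j _ => ?_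
        set s := (powersetCard k (univ : Finset α)).filter (fun x => i ∈ x ∩ z ∧ j ∈ (x ∪ z)ᶜ) with hs
        have hmem : ∀ x ∈ s, x.card = k ∧ i ∈ x ∧ i ∈ z ∧ j ∉ x ∧ j ∉ z := by
          intro x hx
          simpa [hs, and_assoc] using hx
        have hinj : Set.InjOn (fun x : Finset α => insert j (x.erase i)) s := by
          intro x hx y hy h
          obtain ⟨-, a1, -, a2, -⟩ := hmem x hx
          obtain ⟨-, b1, -, b2, -⟩ := hmem y hy
          have : ∀ u : Finset α, i ∈ u → j ∉ u → insert i ((insert j (u.erase i)).erase j) = u := by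
            intro u u1 u2
            rw [erase_insert (by simp [u2]), insert_erase u1]
          rw [← this x a1 a2, ← this y b1 b2]
          exact congrArg (fun u => insert i (u.erase j)) h
        calc _ ≤ ∑ x ∈ s, E * (w (insert j (x.erase i)) / H (insert j (x.erase i)) z) := by
              refine sum_le_sum fun x hx => ?_
              obtain ⟨a0, a1, a2, a3, a4⟩ := hmem x hx
              rw [H_move a1 a2 a3 a4, ← mul_div_assoc]
              push_cast
              gcongr
              exact hdp x (by simp [a0]) i a1 j a3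
          _ = ∑ x ∈ s.image (fun x => insert j (x.erase i)), E * (w x / H x z) :=
              (sum_image (f := fun x => E * (w x / H x z)) hinj).symm
          _ ≤ _ := by
              refine sum_le_sum_of_subset_of_nonneg ?_ fun x _ _ => by have := hw x; positivity
              intro y hy
              obtain ⟨x, hx, rfl⟩ := mem_image.mp hy
              obtain ⟨a0, a1, a2, a3, a4⟩ := hmem x hx
              have hij : i ≠ j := fun h => a3 (h ▸ a1)
              have : 0 < k := a0 ▸ card_pos.mpr ⟨i, a1⟩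
              simp only [mem_filter, mem_powersetCard, subset_univ, true_and, mem_sdiff, mem_insert,
                mem_erase]
              refine ⟨?_, ⟨a2, by simp [hij]⟩, by simp, a4⟩
              rw [card_insert_of_notMem (by simp [a3]), card_erase_of_mem a1]
              omega
    _ = ∑ x ∈ powersetCard k univ, E * (w x / H x z) * ((z \ x).card * (x \ z).card) :=
        sum_ite_card _ _ (fun x => z \ x) (fun x => x \ z)
    _ ≤ _ := by
        rw [mul_sum]
        refine sum_le_sum fun x _ => ?_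
        rw [mul_assoc]
        refine mul_le_mul_of_nonneg_left ?_ hE
        have := hw x
        rcases Nat.eq_zero_or_pos (H x z) with h | h
        · simp [h]
        · have h' : (0 : ℝ) < H x z := by exact_mod_cast h
          rw [div_mul_eq_mul_div, mul_div_assoc]
          refine mul_le_mul_of_nonneg_left ?_ this
          rw [div_le_div_iff₀ h' (by norm_num), H]
          push_cast
          nlinarith [sq_nonneg (((z \ x).card : ℝ) - (x \ z).card)]

lemma cards (k : ℕ) (hα : Fintype.card α = 2 * k) (x z : Finset α) (hx : x.card = k) :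
    k ≤ (x ∩ z).card + H x z ∧ k ≤ (x ∪ z)ᶜ.card + H x z := by
  have h1 := card_sdiff_add_card_inter x z
  have h2 := card_compl (x ∪ z)
  have h3 := card_sdiff_add_card z x
  have h4 := card_le_univ (x ∪ z)
  rw [union_comm] at h3
  unfold H
  omega

/-- the lower bound on the mean Hamming error -/
lemma main (k : ℕ) (hα : Fintype.card α = 2 * k) {β : Type} [Fintype β] (ζ : β → Finset α) (E μ : ℝ)
    (hE : 0 ≤ E) (hμ : 1 ≤ μ) (hk : 4 * μ ≤ k) (P : Finset α → β → ℝ) (hP : ∀ x b, 0 ≤ P x b)
    (h1 : ∀ x ∈ powersetCard k (univ : Finset α), ∑ b, P x b = 1)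
    (hdp : ∀ b, ∀ x ∈ powersetCard k (univ : Finset α), ∀ i ∈ x, ∀ j ∉ x,
      P x b ≤ E * P (insert j (x.erase i)) b)
    (herr : ∀ x ∈ powersetCard k (univ : Finset α), ∑ b, P x b * H x (ζ b) ≤ μ) :
    (k : ℝ) ^ 2 ≤ 8 * E * μ ^ 2 := by
  set L := powersetCard k (univ : Finset α) with hL
  have hLpos : (0 : ℝ) < L.card := by
    have : L.Nonempty := powersetCard_nonempty.mpr (by rw [card_univ]; omega)
    exact_mod_cast card_pos.mpr this
  set g : ℝ := (k / 2) ^ 2 / (2 * μ + 2) with hg
  have hg0 : 0 ≤ g := by positivity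
  have a1 : ∀ b, ∑ x ∈ L, P x b * (g * (1 - H x (ζ b) / (2 * μ))) ≤
      E * ∑ x ∈ L, P x b * (H x (ζ b) / 4) := by
    intro b
    refine le_trans (sum_le_sum fun x hx => ?_) (key k E hE (ζ b) (fun x => P x b) (fun x => hP x b) (hdp b))
    rw [div_mul_eq_mul_div (P x b), mul_div_assoc (P x b)]
    refine mul_le_mul_of_nonneg_left ?_ (hP x b)
    obtain ⟨c1, c2⟩ := cards k hα x (ζ b) (mem_powersetCard.mp hx).2
    have c1' : (k : ℝ) ≤ (x ∩ ζ b).card + H x (ζ b) := by exact_mod_cast c1
    have c2' : (k : ℝ) ≤ (x ∪ ζ b)ᶜ.card + H x (ζ b) := by exact_mod_cast c2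
    have c0 : (0 : ℝ) ≤ H x (ζ b) := by positivity
    by_cases h : (H x (ζ b) : ℝ) ≤ 2 * μ
    · calc _ ≤ g := mul_le_of_le_one_right hg0 (by
            have : (0 : ℝ) ≤ H x (ζ b) / (2 * μ) := by positivity
            linarith)
        _ ≤ _ := by
          rw [hg, sq]
          gcongr <;> linarith
    · refine le_trans (mul_nonpos_of_nonneg_of_nonpos hg0 ?_) (by positivity)
      rw [sub_nonpos, le_div_iff₀ (by positivity)]
      linarith
  have a2 := sum_le_sum fun b (_ : b ∈ (univ : Finset β)) => a1 b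
  rw [sum_comm, ← mul_sum, sum_comm (s := univ)] at a2
  have a3 : L.card • (g / 2) ≤ ∑ x ∈ L, ∑ b, P x b * (g * (1 - H x (ζ b) / (2 * μ))) := by
    refine card_nsmul_le_sum _ _ _ fun x hx => ?_
    have : ∑ b, P x b * (g * (1 - H x (ζ b) / (2 * μ))) =
        g * (∑ b, P x b - (∑ b, P x b * H x (ζ b)) / (2 * μ)) := by
      rw [sum_div, ← sum_sub_distrib, mul_sum]
      exact sum_congr rfl fun b _ => by ring
    rw [this, h1 x hx]
    have : (∑ b, P x b * H x (ζ b)) / (2 * μ) ≤ 1 / 2 := by
      rw [div_le_iff₀ (by positivity)]; linarith [herr x hx]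
    nlinarith
  have a4 : ∑ x ∈ L, ∑ b, P x b * (H x (ζ b) / 4) ≤ L.card • (μ / 4) := by
    refine sum_le_card_nsmul _ _ _ fun x hx => ?_
    simp only [← mul_div_assoc, ← sum_div]
    linarith [herr x hx]
  rw [nsmul_eq_mul] at a3 a4
  have a5 : g / 2 ≤ E * (μ / 4) := by
    refine le_of_mul_le_mul_left ?_ hLpos
    calc _ ≤ _ := a3.trans a2
      _ ≤ E * (L.card * (μ / 4)) := by gcongr
      _ = _ := by ring
  rw [hg, div_div, div_le_iff₀ (by positivity)] at a5
  nlinarith [mul_nonneg (mul_nonneg hE (by linarith : 0 ≤ μ)) (by linarith : 0 ≤ μ - 1)]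

end comb

/-- the staircase -/
def base (m r : ℕ) (i : ℕ) : ℕ := (m - i) + if i = 0 then r else 0

noncomputable def pt (m r : ℕ) (x : Finset (Fin m)) : ℕ →₀ ℕ :=
  Finsupp.onFinset (range (m + 1)) (fun i => base m r i + if i ∈ x.map Fin.valEmbedding then 1 else 0) (by
    intro i hi
    by_contra h
    have h' : m + 1 ≤ i := by simpa using h
    refine hi ?_
    rw [if_neg, base, if_neg (by omega)]
    · omega
    · simp only [mem_map, Fin.valEmbedding_apply]
      rintro ⟨a, -, rfl⟩
      omega)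

lemma pt_apply (m r : ℕ) (x : Finset (Fin m)) (i : ℕ) :
    pt m r x i = base m r i + if i ∈ x.map Fin.valEmbedding then 1 else 0 := rfl

lemma pt_anti (m r : ℕ) (x : Finset (Fin m)) : Antitone (pt m r x) := by
  refine antitone_nat_of_succ_le fun i => ?_
  rw [pt_apply, pt_apply, base, base, if_neg (Nat.succ_ne_zero i)]
  by_cases h : i + 1 ∈ x.map Fin.valEmbedding
  · obtain ⟨a, -, ha⟩ := mem_map.mp h
    have := a.2
    rw [Fin.valEmbedding_apply] at ha
    rw [if_pos h]
    omega
  · rw [if_neg h]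
    omega

lemma pt_size (m r : ℕ) (x : Finset (Fin m)) :
    size (pt m r x) = ∑ i ∈ range (m + 1), (m - i) + r + x.card := by
  rw [size, pt, Finsupp.onFinset_sum _ (fun _ => rfl)]
  simp only [base, sum_add_distrib]
  rw [sum_ite_eq', if_pos (by simp), ← card_filter, filter_mem_eq_inter, inter_eq_right.mpr, card_map]
  intro i hi
  obtain ⟨a, -, rfl⟩ := mem_map.mp hi
  simp only [Fin.valEmbedding_apply, mem_range]
  omega

lemma l1_one (p p' : ℕ →₀ ℕ) (i : ℕ) (h : ∀ j ≠ i, p j = p' j) (hi : |(p i : ℝ) - p' i| ≤ 1) :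
    l1 (fun j => p j) p' ≤ 1 := by
  rw [l1, tsum_eq_single i fun j hj => by simp [h j hj]]
  exact ENNReal.ofReal_le_one.mpr hi

lemma pt_nb (m r : ℕ) (x : Finset (Fin m)) (i : Fin m) :
    l1 (fun j => pt m r (insert i x) j) (pt m r x) ≤ 1 ∧ l1 (fun j => pt m r x j) (pt m r (insert i x)) ≤ 1 := by
  have h : ∀ j ≠ (i : ℕ), pt m r (insert i x) j = pt m r x j := by
    intro j hj
    simp only [pt_apply, map_insert, mem_insert, Fin.valEmbedding_apply, hj, false_or]
  have hi : |(pt m r (insert i x) i : ℝ) - pt m r x i| ≤ 1 := by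
    rw [pt_apply, pt_apply]
    split_ifs <;> simp
  exact ⟨l1_one _ _ i h hi, l1_one _ _ i (fun j hj => (h j hj).symm) (by rwa [abs_sub_comm])⟩

noncomputable def rd (m r : ℕ) (y : ℕ → ℝ) (i : Fin m) : Bool :=
  if (base m r i : ℝ) + 1 / 2 ≤ y i then true else false

lemma rd_meas (m r : ℕ) : Measurable (rd m r) :=
  measurable_pi_lambda _ fun _ =>
    Measurable.ite (measurableSet_le measurable_const (measurable_pi_apply _)) measurable_const measurable_const

def zs {m : ℕ} (b : Fin m → Bool) : Finset (Fin m) := univ.filter fun i => b i = true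

lemma rd_err (m r : ℕ) (x : Finset (Fin m)) (y : ℕ → ℝ) :
    ENNReal.ofReal (H x (zs (rd m r y)) / 2) ≤ l1 y (pt m r x) := by
  set z := zs (rd m r y) with hz
  have hd : Disjoint (z \ x) (x \ z) := disjoint_sdiff_sdiff
  refine le_trans ?_ (ENNReal.sum_le_tsum (((z \ x) ∪ (x \ z)).map Fin.valEmbedding))
  rw [← ENNReal.ofReal_sum_of_nonneg fun _ _ => abs_nonneg _, sum_map]
  refine ENNReal.ofReal_le_ofReal ?_
  have := card_nsmul_le_sum ((z \ x) ∪ (x \ z))
    (fun i => |y (Fin.valEmbedding i) - pt m r x (Fin.valEmbedding i)|) (1 / 2) (fun i hi => by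
      have e : (Fin.valEmbedding i ∈ x.map Fin.valEmbedding) ↔ i ∈ x := mem_map' _
      have e2 : i ∈ z ↔ (base m r i : ℝ) + 1 / 2 ≤ y i := by simp [hz, zs, rd]
      rw [pt_apply, Fin.valEmbedding_apply] at *
      rcases mem_union.mp hi with h | h
      · rw [if_neg (fun h' => (mem_sdiff.mp h).2 (e.mp h'))]
        have := e2.mp (mem_sdiff.mp h).1
        push_cast
        exact le_trans (by linarith) (le_abs_self _)
      · rw [if_pos (e.mpr (mem_sdiff.mp h).1)]
        have := not_le.mp fun h' => (mem_sdiff.mp h).2 (e2.mpr h')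
        push_cast
        exact le_trans (by linarith) (neg_le_abs _))
  rw [card_union_of_disjoint hd, nsmul_eq_mul] at this
  rw [H]
  linarith

theorem result : ∃ c : ℝ, 0 < c ∧ ∀ ε : ℝ, 0 ≤ ε → ∃ N : ℕ, ∀ n ≥ N,
    ∀ A : (ℕ →₀ ℕ) → Measure (ℕ → ℝ), IsDP n ε A →
      ∃ p : ℕ →₀ ℕ, Antitone p ∧ size p = n ∧
        ENNReal.ofReal (c * √n / Real.exp ε) ≤ ∫⁻ y, l1 y p ∂(A p) := by
  refine ⟨1 / 100, by norm_num, fun ε hε => ⟨⌈(50 * Real.exp ε) ^ 2⌉₊, fun n hn A hA => ?_⟩⟩
  by_contra! hc
  set E := Real.exp ε with hE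
  have hE1 : 1 ≤ E := Real.one_le_exp hε
  have hs : 50 * E ≤ √n := Real.le_sqrt_of_sq_le (Nat.ceil_le.mp hn)
  set s := √(n : ℝ) with hs'
  have hss : s ^ 2 = n := Real.sq_sqrt (by positivity)
  set k := ⌊s / 3⌋₊ with hk
  have k1 : (k : ℝ) ≤ s / 3 := Nat.floor_le (by positivity)
  have k2 : s / 3 < k + 1 := Nat.lt_floor_add_one _
  set B := ∑ i ∈ range (2 * k + 1), (2 * k - i) with hB
  have hBk : B + k ≤ n := by
    have b1 : B ≤ (range (2 * k + 1)).card • (2 * k) := sum_le_card_nsmul _ _ _ fun i _ => Nat.sub_le _ _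
    rw [card_range, smul_eq_mul] at b1
    have b2 : (((2 * k + 1) * (2 * k) + k : ℕ) : ℝ) ≤ n := by
      push_cast
      have : (0 : ℝ) ≤ k := by positivity
      nlinarith
    have b3 : (2 * k + 1) * (2 * k) + k ≤ n := by exact_mod_cast b2
    omega
  set r := n - (B + k) with hr
  have hsz : ∀ x : Finset (Fin (2 * k)), size (pt (2 * k) r x) + k = n + x.card := by
    intro x; rw [pt_size]; omega
  set ν := fun x : Finset (Fin (2 * k)) => (A (pt (2 * k) r x)).map (rd (2 * k) r) with hν
  have hpr : ∀ x : Finset (Fin (2 * k)), x.card ≤ k → IsProbabilityMeasure (ν x) := fun x hx => by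
    have := hA.1 _ (pt_anti _ r x) (by have := hsz x; omega)
    exact Measure.isProbabilityMeasure_map (rd_meas _ r).aemeasurable
  have hstep : ∀ x y : Finset (Fin (2 * k)), x.card ≤ k → y.card ≤ k →
      l1 (fun j => pt (2 * k) r x j) (pt (2 * k) r y) ≤ 1 → ∀ b, (ν x).real {b} ≤ E * (ν y).real {b} := by
    intro x y hx hy hxy b
    have := hpr y hy
    have h := hA.2 _ _ (pt_anti _ r x) (by have := hsz x; omega) (pt_anti _ r y) (by have := hsz y; omega)
      hxy _ (rd_meas _ r (measurableSet_singleton b))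
    rw [← Measure.map_apply (rd_meas _ r) (measurableSet_singleton b),
      ← Measure.map_apply (rd_meas _ r) (measurableSet_singleton b)] at h
    have := ENNReal.toReal_mono (ENNReal.mul_ne_top ENNReal.ofReal_ne_top (measure_ne_top (ν y) _)) h
    rwa [ENNReal.toReal_mul, ENNReal.toReal_ofReal (by positivity)] at this
  have hμ : 1 ≤ s / (50 * E) := by rw [le_div_iff₀ (by positivity)]; linarith
  have hμ2 : s / (50 * E) ≤ s / 50 := by gcongr; linarith
  have := main k (by simp) zs (E ^ 2) (s / (50 * E)) (by positivity) hμ (by linarith)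
    (fun x b => (ν x).real {b}) (fun _ _ => measureReal_nonneg) (fun x hx => by
      have := hpr x (mem_powersetCard.mp hx).2.le
      simp)
    (fun b x hx i hi j hj => by
      have h0 := (mem_powersetCard.mp hx).2
      have h1 : (x.erase i).card + 1 = k := (card_erase_add_one hi).trans h0
      have h2 := card_insert_le j (x.erase i)
      have a1 := hstep x (x.erase i) h0.le (by omega)
        (by have := (pt_nb _ r (x.erase i) i).1; rwa [insert_erase hi] at this) b
      have a2 := hstep (x.erase i) (insert j (x.erase i)) (by omega) (by omega) (pt_nb _ r _ j).2 b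
      calc _ ≤ _ := a1
        _ ≤ E * (E * (ν (insert j (x.erase i))).real {b}) := by gcongr
        _ = _ := by ring)
    (fun x hx => by
      have h0 := (mem_powersetCard.mp hx).2
      have := hpr x h0.le
      have a1 := (lintegral_mono fun y => rd_err _ r x y).trans_lt
        (hc _ (pt_anti _ r x) (by have := hsz x; omega))
      rw [← lintegral_map (f := fun b => ENNReal.ofReal (H x (zs b) / 2)) (measurable_of_countable _)
        (rd_meas _ r), lintegral_fintype] at a1
      have a2 := ENNReal.toReal_mono ENNReal.ofReal_ne_top a1.le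
      rw [ENNReal.toReal_sum fun b _ => ENNReal.mul_ne_top ENNReal.ofReal_ne_top (measure_ne_top (ν x) _),
        ENNReal.toReal_ofReal (by positivity)] at a2
      have a3 : ∑ b, (ν x).real {b} * H x (zs b) =
          2 * ∑ b, (ENNReal.ofReal (H x (zs b) / 2) * ν x {b}).toReal := by
        rw [mul_sum]
        refine sum_congr rfl fun b _ => ?_
        rw [ENNReal.toReal_mul, ENNReal.toReal_ofReal (by positivity), measureReal_def]
        ring
      rw [a3]
      calc _ ≤ 2 * (1 / 100 * s / E) := by gcongr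
        _ = _ := by field_simp; ring)
  have e : 8 * E ^ 2 * (s / (50 * E)) ^ 2 = s ^ 2 * (8 / 2500) := by field_simp; norm_num
  rw [e] at this
  nlinarith

end Pool.Agent.Results.MP_c9d3d4_lc.NonUniform
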